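import Pool.Agent.CLK.GPd

/-!
# CLK/GPb: for almost all perturbations there is no triple point, and no double point on a given curve
(difficulty 2)

* `null_triple`: the bad set is contained in `f '' A`, where for `(z, z', w0)` in `C³` we put
  `s₁ = z.re`, `s₂ = z.im`, `s₃ = z'.re`, `A = {s₁ ≠ s₂, s₂ ≠ s₃, s₁ ≠ s₃}` and
  `f (z, z', w0) = (w0, w1, w2)`,
  `w2 = (-(c s₁ - c s₂)/(s₁ - s₂) + (c s₂ - c s₃)/(s₂ - s₃)) / (s₁ - s₃)`,
  `w1 = -(c s₁ - c s₂)/(s₁ - s₂) - w2 (s₁ + s₂)`.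
  Indeed `c s₁ + pw w s₁ = c s₂ + pw w s₂` gives `w1 + w2 (s₁ + s₂) = -(c s₁ - c s₂)/(s₁ - s₂)`, in the
  same way `w1 + w2 (s₂ + s₃) = -(c s₂ - c s₃)/(s₂ - s₃)`; subtract.
  `f` is differentiable on `A` and its derivative kills `(0, i, 0)`: `f (x + t (0, i, 0)) = f x` for
  all real `t`, so `f' (0, i, 0)` is the derivative of a constant function of `t`.  `null_of_det`.
* `null_curve`: the same with `(z, z', w2)`, `s = z.re`, `s' = z.im`, `u = z'.re`, `A = {s ≠ s'}`,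
  `f (z, z', w2) = (w0, w1, w2)`, `w1 = -(c s - c s')/(s - s') - w2 (s + s')`,
  `w0 = γ u - c s - w1 s - w2 s²`.
-/

open scoped ContDiff Topology
open Set Filter MeasureTheory

namespace Pool.Agent.CLK

/-- derivative along a line on which the function is constant -/
theorem GPb_fderiv_line {f : W3 → W3} {x v : W3} (hf : DifferentiableAt ℝ f x)
    (h : ∀ t : ℝ, f (x + t • v) = f x) : fderiv ℝ f x v = 0 := by
  have h1 : HasDerivAt (fun t : ℝ => f (x + t • v)) (fderiv ℝ f x v) 0 :=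
    hf.hasFDerivAt.hasLineDerivAt v
  have h2 : (fun t : ℝ => f (x + t • v)) = fun _ => f x := funext h
  rw [h2] at h1
  exact h1.unique (hasDerivAt_const 0 (f x))

theorem GPb_ne {a b : ℝ} (h : a ≠ b) : (a : ℂ) - (b : ℂ) ≠ 0 := by
  rw [← Complex.ofReal_sub]
  exact Complex.ofReal_ne_zero.2 (sub_ne_zero.2 h)

theorem GPb_re : Differentiable ℝ fun z : ℂ => z.re := Complex.reCLM.differentiable
theorem GPb_im : Differentiable ℝ fun z : ℂ => z.im := Complex.imCLM.differentiable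
theorem GPb_ofReal : Differentiable ℝ fun s : ℝ => (s : ℂ) := Complex.ofRealCLM.differentiable

theorem GPb_quad {a b w0 w1 w2 : ℂ} {x y : ℂ} (hxy : x - y ≠ 0)
    (h : a + (w0 + w1 * x + w2 * x ^ 2) = b + (w0 + w1 * y + w2 * y ^ 2)) :
    -(a - b) / (x - y) = w1 + w2 * (x + y) := by
  rw [div_eq_iff hxy]
  linear_combination -h

theorem null_triple {c : ℝ → ℂ} (hc : ContDiff ℝ 1 c) :
    volume {w : W3 | ∃ s₁ s₂ s₃ : ℝ, s₁ ≠ s₂ ∧ s₂ ≠ s₃ ∧ s₁ ≠ s₃ ∧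
      c s₁ + pw w s₁ = c s₂ + pw w s₂ ∧ c s₂ + pw w s₂ = c s₃ + pw w s₃} = 0 := by
  have hcd : Differentiable ℝ c := hc.differentiable one_ne_zero
  have hre := GPb_re
  have him := GPb_im
  have hof := GPb_ofReal
  obtain ⟨A, hA⟩ : ∃ A : Set W3, A = {x : W3 | x.1.re ≠ x.1.im ∧ x.1.im ≠ x.2.1.re ∧
    x.1.re ≠ x.2.1.re} := ⟨_, rfl⟩
  obtain ⟨g2, hg2⟩ : ∃ g2 : W3 → ℂ, g2 = fun x =>
    (-(c x.1.re - c x.1.im) / ((x.1.re : ℂ) - (x.1.im : ℂ)) +
      (c x.1.im - c x.2.1.re) / ((x.1.im : ℂ) - (x.2.1.re : ℂ))) /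
        ((x.1.re : ℂ) - (x.2.1.re : ℂ)) := ⟨_, rfl⟩
  obtain ⟨g1, hg1⟩ : ∃ g1 : W3 → ℂ, g1 = fun x =>
    -(c x.1.re - c x.1.im) / ((x.1.re : ℂ) - (x.1.im : ℂ)) -
      g2 x * ((x.1.re : ℂ) + (x.1.im : ℂ)) := ⟨_, rfl⟩
  have hd2 : ∀ x ∈ A, DifferentiableAt ℝ g2 x := by
    intro x hx
    rw [hA] at hx
    have e1 := GPb_ne hx.1
    have e2 := GPb_ne hx.2.1
    have e3 := GPb_ne hx.2.2
    rw [hg2]
    simp only [div_eq_mul_inv]
    fun_prop (disch := assumption)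
  have hd1 : ∀ x ∈ A, DifferentiableAt ℝ g1 x := by
    intro x hx
    have h2 := hd2 x hx
    rw [hA] at hx
    have e1 := GPb_ne hx.1
    rw [hg1]
    simp only [div_eq_mul_inv]
    fun_prop (disch := assumption)
  have key := null_of_det (f := fun x => (x.2.2, g1 x, g2 x))
    (f' := fderiv ℝ (fun x : W3 => ((x.2.2, g1 x, g2 x) : W3))) (A := A) ?_ ?_
  · refine measure_mono_null ?_ key
    rintro w ⟨s₁, s₂, s₃, h12, h23, h13, ha, hb⟩
    refine ⟨(⟨s₁, s₂⟩, (s₃ : ℂ), w.1), ?_, ?_⟩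
    · rw [hA]
      exact ⟨h12, h23, h13⟩
    · have q1 := GPb_quad (GPb_ne h12) ha
      have q2 := GPb_quad (GPb_ne h23) hb
      have k2 : g2 (⟨s₁, s₂⟩, (s₃ : ℂ), w.1) = w.2.2 := by
        rw [hg2]
        show (-(c s₁ - c s₂) / ((s₁ : ℂ) - (s₂ : ℂ)) + (c s₂ - c s₃) / ((s₂ : ℂ) - (s₃ : ℂ))) /
          ((s₁ : ℂ) - (s₃ : ℂ)) = w.2.2
        have q3 : (c s₂ - c s₃) / ((s₂ : ℂ) - (s₃ : ℂ)) = -(w.2.1 + w.2.2 * ((s₂ : ℂ) + s₃)) := by
          rw [← q2, neg_div, neg_neg]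
        rw [q1, q3, div_eq_iff (GPb_ne h13)]
        ring
      have k1 : g1 (⟨s₁, s₂⟩, (s₃ : ℂ), w.1) = w.2.1 := by
        rw [hg1]
        show -(c s₁ - c s₂) / ((s₁ : ℂ) - (s₂ : ℂ)) -
          g2 (⟨s₁, s₂⟩, (s₃ : ℂ), w.1) * ((s₁ : ℂ) + (s₂ : ℂ)) = w.2.1
        rw [k2, q1]
        ring
      show (w.1, g1 (⟨s₁, s₂⟩, (s₃ : ℂ), w.1), g2 (⟨s₁, s₂⟩, (s₃ : ℂ), w.1)) = w
      rw [k1, k2]
  · intro x hx
    have h1 := hd1 x hx
    have h2 := hd2 x hx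
    have h3 : DifferentiableAt ℝ (fun x : W3 => ((x.2.2, g1 x, g2 x) : W3)) x :=
      (differentiableAt_snd.snd).prodMk (h1.prodMk h2)
    exact h3.hasFDerivAt
  · intro x hx
    have h1 := hd1 x hx
    have h2 := hd2 x hx
    have h3 : DifferentiableAt ℝ (fun x : W3 => ((x.2.2, g1 x, g2 x) : W3)) x :=
      (differentiableAt_snd.snd).prodMk (h1.prodMk h2)
    refine ⟨(0, Complex.I, 0), ?_, GPb_fderiv_line h3 ?_⟩
    · intro h
      have := congrArg (fun v : W3 => v.2.1) h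
      exact Complex.I_ne_zero this
    · intro t
      have e1 : (x + t • ((0, Complex.I, 0) : W3)).1 = x.1 := by simp
      have e2 : (x + t • ((0, Complex.I, 0) : W3)).2.1.re = x.2.1.re := by simp
      have e3 : (x + t • ((0, Complex.I, 0) : W3)).2.2 = x.2.2 := by simp
      have k2 : g2 (x + t • ((0, Complex.I, 0) : W3)) = g2 x := by
        rw [hg2]
        simp only
        rw [e1, e2]
      have k1 : g1 (x + t • ((0, Complex.I, 0) : W3)) = g1 x := by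
        rw [hg1]
        simp only
        rw [k2, e1]
      show ((x + t • ((0, Complex.I, 0) : W3)).2.2, g1 (x + t • ((0, Complex.I, 0) : W3)),
        g2 (x + t • ((0, Complex.I, 0) : W3))) = (x.2.2, g1 x, g2 x)
      rw [k1, k2, e3]

theorem null_curve {c γ : ℝ → ℂ} (hc : ContDiff ℝ 1 c) (hγ : ContDiff ℝ 1 γ) :
    volume {w : W3 | ∃ s s' u : ℝ, s ≠ s' ∧ c s + pw w s = c s' + pw w s' ∧
      c s + pw w s = γ u} = 0 := by
  have hcd : Differentiable ℝ c := hc.differentiable one_ne_zero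
  have hγd : Differentiable ℝ γ := hγ.differentiable one_ne_zero
  have hre := GPb_re
  have him := GPb_im
  have hof := GPb_ofReal
  obtain ⟨A, hA⟩ : ∃ A : Set W3, A = {x : W3 | x.1.re ≠ x.1.im} := ⟨_, rfl⟩
  obtain ⟨g1, hg1⟩ : ∃ g1 : W3 → ℂ, g1 = fun x =>
    -(c x.1.re - c x.1.im) / ((x.1.re : ℂ) - (x.1.im : ℂ)) -
      x.2.2 * ((x.1.re : ℂ) + (x.1.im : ℂ)) := ⟨_, rfl⟩
  obtain ⟨g0, hg0⟩ : ∃ g0 : W3 → ℂ, g0 = fun x =>
    γ x.2.1.re - c x.1.re - g1 x * (x.1.re : ℂ) - x.2.2 * (x.1.re : ℂ) ^ 2 := ⟨_, rfl⟩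
  have hd1 : ∀ x ∈ A, DifferentiableAt ℝ g1 x := by
    intro x hx
    rw [hA] at hx
    have e1 := GPb_ne hx
    rw [hg1]
    simp only [div_eq_mul_inv]
    fun_prop (disch := assumption)
  have hd0 : ∀ x ∈ A, DifferentiableAt ℝ g0 x := by
    intro x hx
    have h1 := hd1 x hx
    rw [hg0]
    fun_prop
  have key := null_of_det (f := fun x => (g0 x, g1 x, x.2.2))
    (f' := fderiv ℝ (fun x : W3 => ((g0 x, g1 x, x.2.2) : W3))) (A := A) ?_ ?_
  · refine measure_mono_null ?_ key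
    rintro w ⟨s, s', u, hss, ha, hb⟩
    refine ⟨(⟨s, s'⟩, (u : ℂ), w.2.2), ?_, ?_⟩
    · rw [hA]
      exact hss
    · have q1 := GPb_quad (GPb_ne hss) ha
      have k1 : g1 (⟨s, s'⟩, (u : ℂ), w.2.2) = w.2.1 := by
        rw [hg1]
        show -(c s - c s') / ((s : ℂ) - (s' : ℂ)) - w.2.2 * ((s : ℂ) + (s' : ℂ)) = w.2.1
        rw [q1]
        ring
      have k0 : g0 (⟨s, s'⟩, (u : ℂ), w.2.2) = w.1 := by
        rw [hg0]
        show γ u - c s - g1 (⟨s, s'⟩, (u : ℂ), w.2.2) * (s : ℂ) - w.2.2 * (s : ℂ) ^ 2 = w.1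
        rw [k1]
        have hb' : c s + (w.1 + w.2.1 * s + w.2.2 * (s : ℂ) ^ 2) = γ u := hb
        linear_combination -hb'
      show (g0 (⟨s, s'⟩, (u : ℂ), w.2.2), g1 (⟨s, s'⟩, (u : ℂ), w.2.2), w.2.2) = w
      rw [k0, k1]
  · intro x hx
    have h1 := hd1 x hx
    have h2 := hd0 x hx
    have h3 : DifferentiableAt ℝ (fun x : W3 => ((g0 x, g1 x, x.2.2) : W3)) x :=
      h2.prodMk (h1.prodMk differentiableAt_snd.snd)
    exact h3.hasFDerivAt
  · intro x hx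
    have h1 := hd1 x hx
    have h2 := hd0 x hx
    have h3 : DifferentiableAt ℝ (fun x : W3 => ((g0 x, g1 x, x.2.2) : W3)) x :=
      h2.prodMk (h1.prodMk differentiableAt_snd.snd)
    refine ⟨(0, Complex.I, 0), ?_, GPb_fderiv_line h3 ?_⟩
    · intro h
      have := congrArg (fun v : W3 => v.2.1) h
      exact Complex.I_ne_zero this
    · intro t
      have e1 : (x + t • ((0, Complex.I, 0) : W3)).1 = x.1 := by simp
      have e2 : (x + t • ((0, Complex.I, 0) : W3)).2.1.re = x.2.1.re := by simp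
      have e3 : (x + t • ((0, Complex.I, 0) : W3)).2.2 = x.2.2 := by simp
      have k1 : g1 (x + t • ((0, Complex.I, 0) : W3)) = g1 x := by
        rw [hg1]
        simp only
        rw [e1, e3]
      have k0 : g0 (x + t • ((0, Complex.I, 0) : W3)) = g0 x := by
        rw [hg0]
        simp only
        rw [k1, e1, e2, e3]
      show (g0 (x + t • ((0, Complex.I, 0) : W3)), g1 (x + t • ((0, Complex.I, 0) : W3)),
        (x + t • ((0, Complex.I, 0) : W3)).2.2) = (g0 x, g1 x, x.2.2)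
      rw [k0, k1, e3]

end Pool.Agent.CLK
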