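import Pool.Agent.CLK.GPa
import Pool.Agent.CLK.GPb

/-!
# CLK/GP: the general position lemma  (difficulty 1)

`gp`: the union of the bad sets of `null_imm`, `null_trans`, `null_triple` and `null_curve` (for all
`j`; `measure_iUnion_null`) has measure `0`; use `exists_small`.
-/

open scoped ContDiff Topology
open Set Filter MeasureTheory

namespace Pool.Agent.CLK

/-- **General position.**  A plane curve `c` becomes, after adding a small polynomial
`w0 + w1 s + w2 s²`, an immersion with transverse double points and without triple points, whose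
double points are on none of the given curves `γ j`. -/
theorem gp {ι : Type*} [Countable ι] {c : ℝ → ℂ} (hc : ContDiff ℝ 2 c) {γ : ι → ℝ → ℂ}
    (hγ : ∀ j, ContDiff ℝ 1 (γ j)) {ε : ℝ} (hε : 0 < ε) :
    ∃ w : W3, ‖w‖ < ε ∧ (∀ s, deriv c s + pw' w s ≠ 0) ∧
      (∀ s s' : ℝ, s ≠ s' → c s + pw w s = c s' + pw w s' →
        dt (deriv c s + pw' w s) (deriv c s' + pw' w s') ≠ 0) ∧
      (∀ s₁ s₂ s₃ : ℝ, s₁ ≠ s₂ → s₂ ≠ s₃ → s₁ ≠ s₃ → c s₁ + pw w s₁ = c s₂ + pw w s₂ →
        c s₂ + pw w s₂ ≠ c s₃ + pw w s₃) ∧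
      ∀ j, ∀ s s' u : ℝ, s ≠ s' → c s + pw w s = c s' + pw w s' → c s + pw w s ≠ γ j u := by
  have h1 := null_imm hc
  have hc1 : ContDiff ℝ 1 c := hc.of_le (by norm_num)
  have h2 := null_trans hc1
  have h3 := null_triple hc1
  have h4 := measure_iUnion_null fun j => null_curve hc1 (hγ j)
  have h5 := measure_union_null (measure_union_null h1 h2) (measure_union_null h3 h4)
  obtain ⟨w, hw, hn⟩ := exists_small h5 hε
  refine ⟨w, hn, ?_, ?_, ?_, ?_⟩
  · intro s hs
    exact hw (Or.inl (Or.inl ⟨s, hs⟩))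
  · intro s s' hss h hd
    exact hw (Or.inl (Or.inr ⟨s, s', hss, h, hd⟩))
  · intro s₁ s₂ s₃ h12 h23 h13 ha hb
    exact hw (Or.inr (Or.inl ⟨s₁, s₂, s₃, h12, h23, h13, ha, hb⟩))
  · intro j s s' u hss h hu
    exact hw (Or.inr (Or.inr (Set.mem_iUnion.2 ⟨j, s, s', u, hss, h, hu⟩)))

end Pool.Agent.CLK
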