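import Pool.Agent.CLK.GPd

/-!
# CLK/GPa: for almost all perturbations the curve is immersed and its double points are transverse
(difficulty 2)

* `null_imm`: the bad set is contained in `f '' univ`,
  `f (z, w0, w2) = (w0, -c'(z.re) - 2 w2 z.re, w2) : C³ → C³` (`C³ = W3`): take `z = s` (real).
  `f` is differentiable everywhere (`c'` is differentiable), and its derivative kills
  `(i, 0, 0)`, since `f` does not depend on `z.im`.  `null_of_det`.
* `null_trans`: put `s = z.re`, `s' = z.im` and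
  `Q (z, w2) = -(c s - c s') / (s - s') - w2 (s + s')` (complex division).
  The bad set is contained in `f '' A`, `f (z, w0, w2) = (w0, Q (z, w2), w2)`,
  `A = {(z, w0, w2) | s ≠ s' ∧ dt (c' s + Q + 2 w2 s) (c' s' + Q + 2 w2 s') = 0}`:
  if `c s + pw w s = c s' + pw w s'`, divide by `s - s'` to get `w1 = Q (s + i s', w2)`; and
  `c' s + pw' w s = c' s + Q + 2 w2 s`.
  Derivative of `Q` in `s`: `-c'(s)/(s-s') + (c s - c s')/(s-s')² - w2`, and since
  `(c s - c s')/(s-s') = -Q - w2 (s+s')`, it is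
  `-(c'(s) + Q + w2 (s+s') + w2 (s - s')) / (s-s') = -(c'(s) + Q + 2 w2 s)/(s-s')`; in the same way the
  derivative of `Q` in `s'` is `(c'(s') + Q + 2 w2 s')/(s-s')`.  On `A` the numbers
  `a = c'(s) + Q + 2 w2 s`, `b = c'(s') + Q + 2 w2 s'` are dependent: `p a + q b = 0` (`dt_zero`), so
  the derivative of `f` kills `v = (p - i q, 0, 0)` (`dz.re = p`, `dz.im = -q`), `v ≠ 0`.
  `null_of_det`.
-/

open scoped ContDiff Topology
open Set Filter MeasureTheory

namespace Pool.Agent.CLK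

/-- the value of the derivative along a line -/
theorem GPa_fderiv_line {f : W3 → W3} {x v : W3} (hf : DifferentiableAt ℝ f x)
    (h : HasDerivAt (fun t : ℝ => f (x + t • v)) 0 0) : fderiv ℝ f x v = 0 := by
  have h1 : HasDerivAt (fun t : ℝ => f (x + t • v)) (fderiv ℝ f x v) 0 :=
    hf.hasFDerivAt.hasLineDerivAt v
  exact h1.unique h

theorem GPa_ne {a b : ℝ} (h : a ≠ b) : (a : ℂ) - (b : ℂ) ≠ 0 := by
  rw [← Complex.ofReal_sub]
  exact Complex.ofReal_ne_zero.2 (sub_ne_zero.2 h)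

theorem GPa_re : Differentiable ℝ fun z : ℂ => z.re := Complex.reCLM.differentiable
theorem GPa_im : Differentiable ℝ fun z : ℂ => z.im := Complex.imCLM.differentiable
theorem GPa_ofReal : Differentiable ℝ fun s : ℝ => (s : ℂ) := Complex.ofRealCLM.differentiable

theorem GPa_quad {a b w0 w1 w2 : ℂ} {x y : ℂ} (hxy : x - y ≠ 0)
    (h : a + (w0 + w1 * x + w2 * x ^ 2) = b + (w0 + w1 * y + w2 * y ^ 2)) :
    -(a - b) / (x - y) = w1 + w2 * (x + y) := by
  rw [div_eq_iff hxy]
  linear_combination -h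

theorem null_imm {c : ℝ → ℂ} (hc : ContDiff ℝ 2 c) :
    volume {w : W3 | ∃ s, deriv c s + pw' w s = 0} = 0 := by
  have hc' : ContDiff ℝ 1 (deriv c) := by
    have h : ContDiff ℝ (1 + 1) c := by
      refine hc.of_le ?_
      norm_num
    exact (contDiff_succ_iff_deriv.1 h).2.2
  have hcd : Differentiable ℝ (deriv c) := hc'.differentiable one_ne_zero
  have hre := GPa_re
  have hof := GPa_ofReal
  obtain ⟨g1, hg1⟩ : ∃ g1 : W3 → ℂ, g1 = fun x =>
    -(deriv c x.1.re) - 2 * x.2.2 * (x.1.re : ℂ) := ⟨_, rfl⟩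
  have hd1 : ∀ x, DifferentiableAt ℝ g1 x := by
    intro x
    rw [hg1]
    fun_prop
  have h3 : ∀ x, DifferentiableAt ℝ (fun x : W3 => ((x.2.1, g1 x, x.2.2) : W3)) x := fun x =>
    (differentiableAt_snd.fst).prodMk ((hd1 x).prodMk differentiableAt_snd.snd)
  have key := null_of_det (f := fun x => (x.2.1, g1 x, x.2.2))
    (f' := fderiv ℝ (fun x : W3 => ((x.2.1, g1 x, x.2.2) : W3))) (A := univ) ?_ ?_
  · refine measure_mono_null ?_ key
    rintro w ⟨s, hs⟩
    refine ⟨((s : ℂ), w.1, w.2.2), mem_univ _, ?_⟩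
    have k1 : g1 ((s : ℂ), w.1, w.2.2) = w.2.1 := by
      rw [hg1]
      show -(deriv c s) - 2 * w.2.2 * (s : ℂ) = w.2.1
      have hs' : deriv c s + (w.2.1 + 2 * w.2.2 * s) = 0 := hs
      linear_combination -hs'
    show (w.1, g1 ((s : ℂ), w.1, w.2.2), w.2.2) = w
    rw [k1]
  · intro x _
    exact (h3 x).hasFDerivAt
  · intro x _
    refine ⟨(Complex.I, 0, 0), ?_, GPa_fderiv_line (h3 x) ?_⟩
    · intro h
      have := congrArg (fun v : W3 => v.1) h
      exact Complex.I_ne_zero this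
    · have e : (fun t : ℝ => (((x + t • ((Complex.I, 0, 0) : W3)).2.1,
          g1 (x + t • ((Complex.I, 0, 0) : W3)), (x + t • ((Complex.I, 0, 0) : W3)).2.2) : W3)) =
          fun _ => (x.2.1, g1 x, x.2.2) := by
        funext t
        have e1 : (x + t • ((Complex.I, 0, 0) : W3)).1.re = x.1.re := by simp
        have e2 : (x + t • ((Complex.I, 0, 0) : W3)).2.1 = x.2.1 := by simp
        have e3 : (x + t • ((Complex.I, 0, 0) : W3)).2.2 = x.2.2 := by simp
        have k1 : g1 (x + t • ((Complex.I, 0, 0) : W3)) = g1 x := by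
          rw [hg1]
          simp only
          rw [e1, e3]
        rw [k1, e2, e3]
      rw [e]
      exact hasDerivAt_const 0 _

theorem null_trans {c : ℝ → ℂ} (hc : ContDiff ℝ 1 c) :
    volume {w : W3 | ∃ s s' : ℝ, s ≠ s' ∧ c s + pw w s = c s' + pw w s' ∧
      dt (deriv c s + pw' w s) (deriv c s' + pw' w s') = 0} = 0 := by
  have hcd : Differentiable ℝ c := hc.differentiable one_ne_zero
  have hre := GPa_re
  have him := GPa_im
  have hof := GPa_ofReal
  obtain ⟨Q, hQ⟩ : ∃ Q : W3 → ℂ, Q = fun x =>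
    -(c x.1.re - c x.1.im) / ((x.1.re : ℂ) - (x.1.im : ℂ)) -
      x.2.2 * ((x.1.re : ℂ) + (x.1.im : ℂ)) := ⟨_, rfl⟩
  obtain ⟨A, hA⟩ : ∃ A : Set W3, A = {x : W3 | x.1.re ≠ x.1.im ∧
    dt (deriv c x.1.re + (Q x + 2 * x.2.2 * (x.1.re : ℂ)))
      (deriv c x.1.im + (Q x + 2 * x.2.2 * (x.1.im : ℂ))) = 0} := ⟨_, rfl⟩
  have hd1 : ∀ x ∈ A, DifferentiableAt ℝ Q x := by
    intro x hx
    rw [hA] at hx
    have e1 := GPa_ne hx.1
    rw [hQ]
    simp only [div_eq_mul_inv]
    fun_prop (disch := assumption)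
  have h3 : ∀ x ∈ A, DifferentiableAt ℝ (fun x : W3 => ((x.2.1, Q x, x.2.2) : W3)) x :=
    fun x hx => (differentiableAt_snd.fst).prodMk ((hd1 x hx).prodMk differentiableAt_snd.snd)
  have key := null_of_det (f := fun x => (x.2.1, Q x, x.2.2))
    (f' := fderiv ℝ (fun x : W3 => ((x.2.1, Q x, x.2.2) : W3))) (A := A) ?_ ?_
  · refine measure_mono_null ?_ key
    rintro w ⟨s, s', hss, ha, hb⟩
    have q1 := GPa_quad (GPa_ne hss) ha
    have k1 : Q (⟨s, s'⟩, w.1, w.2.2) = w.2.1 := by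
      rw [hQ]
      show -(c s - c s') / ((s : ℂ) - (s' : ℂ)) - w.2.2 * ((s : ℂ) + (s' : ℂ)) = w.2.1
      rw [q1]
      ring
    refine ⟨(⟨s, s'⟩, w.1, w.2.2), ?_, ?_⟩
    · rw [hA]
      refine ⟨hss, ?_⟩
      rw [k1]
      exact hb
    · show (w.1, Q (⟨s, s'⟩, w.1, w.2.2), w.2.2) = w
      rw [k1]
  · intro x hx
    exact (h3 x hx).hasFDerivAt
  · intro x hx
    have hx' := hx
    rw [hA] at hx'
    obtain ⟨hss, hdt⟩ := hx'
    obtain ⟨p, q, hpq, hlin⟩ := dt_zero hdt
    have hD := GPa_ne hss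
    refine ⟨(⟨p, -q⟩, 0, 0), ?_, GPa_fderiv_line (h3 x hx) ?_⟩
    · intro h
      have h1 : (⟨p, -q⟩ : ℂ) = 0 := congrArg (fun v : W3 => v.1) h
      have h2 := congrArg Complex.re h1
      have h4 := congrArg Complex.im h1
      simp only [Complex.zero_re, Complex.zero_im] at h2 h4
      rcases hpq with h5 | h5
      · exact h5 h2
      · exact h5 (by linarith)
    · obtain ⟨s, hs⟩ : ∃ s, s = x.1.re := ⟨_, rfl⟩
      obtain ⟨s', hs'⟩ : ∃ s', s' = x.1.im := ⟨_, rfl⟩
      obtain ⟨w2, hw2⟩ : ∃ w2, w2 = x.2.2 := ⟨_, rfl⟩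
      have e : (fun t : ℝ => (((x + t • ((⟨p, -q⟩, 0, 0) : W3)).2.1,
          Q (x + t • ((⟨p, -q⟩, 0, 0) : W3)), (x + t • ((⟨p, -q⟩, 0, 0) : W3)).2.2) : W3)) =
          fun t => (x.2.1, -(c (s + t * p) - c (s' - t * q)) /
            (((s + t * p : ℝ) : ℂ) - ((s' - t * q : ℝ) : ℂ)) -
            w2 * (((s + t * p : ℝ) : ℂ) + ((s' - t * q : ℝ) : ℂ)), w2) := by
        funext t
        have e1 : (x + t • ((⟨p, -q⟩, 0, 0) : W3)).1.re = s + t * p := by simp [hs]
        have e1' : (x + t • ((⟨p, -q⟩, 0, 0) : W3)).1.im = s' - t * q := by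
          simp [hs']
          ring
        have e2 : (x + t • ((⟨p, -q⟩, 0, 0) : W3)).2.1 = x.2.1 := by simp
        have e3 : (x + t • ((⟨p, -q⟩, 0, 0) : W3)).2.2 = w2 := by simp [hw2]
        have k1 : Q (x + t • ((⟨p, -q⟩, 0, 0) : W3)) = -(c (s + t * p) - c (s' - t * q)) /
            (((s + t * p : ℝ) : ℂ) - ((s' - t * q : ℝ) : ℂ)) -
            w2 * (((s + t * p : ℝ) : ℂ) + ((s' - t * q : ℝ) : ℂ)) := by
          rw [hQ]
          simp only
          rw [e1, e1', e3]
        rw [k1, e2, e3]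
      rw [e]
      have d1 : HasDerivAt (fun t : ℝ => s + t * p) p 0 := by
        have := ((hasDerivAt_id (0 : ℝ)).mul_const p).const_add s
        simpa using this
      have d2 : HasDerivAt (fun t : ℝ => s' - t * q) (-q) 0 := by
        have := ((hasDerivAt_id (0 : ℝ)).mul_const q).const_sub s'
        simpa using this
      have c1 : HasDerivAt (fun t : ℝ => c (s + t * p)) (p • deriv c s) 0 := by
        have hh : HasDerivAt c (deriv c s) (s + 0 * p) := by
          have := (hcd s).hasDerivAt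
          simpa using this
        exact HasDerivAt.scomp (0 : ℝ) hh d1
      have c2 : HasDerivAt (fun t : ℝ => c (s' - t * q)) ((-q) • deriv c s') 0 := by
        have hh : HasDerivAt c (deriv c s') (s' - 0 * q) := by
          have := (hcd s').hasDerivAt
          simpa using this
        exact HasDerivAt.scomp (0 : ℝ) hh d2
      have o1 : HasDerivAt (fun t : ℝ => ((s + t * p : ℝ) : ℂ)) (p : ℂ) 0 := d1.ofReal_comp
      have o2 : HasDerivAt (fun t : ℝ => ((s' - t * q : ℝ) : ℂ)) ((-q : ℝ) : ℂ) 0 := d2.ofReal_comp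
      have hD0 : ((s + 0 * p : ℝ) : ℂ) - ((s' - 0 * q : ℝ) : ℂ) ≠ 0 := by
        rw [hs, hs', zero_mul, zero_mul, add_zero, sub_zero]
        exact hD
      have main : HasDerivAt (fun t : ℝ => -(c (s + t * p) - c (s' - t * q)) /
            (((s + t * p : ℝ) : ℂ) - ((s' - t * q : ℝ) : ℂ)) -
            w2 * (((s + t * p : ℝ) : ℂ) + ((s' - t * q : ℝ) : ℂ))) 0 0 := by
        have m1 := (((c1.sub c2).neg).fun_div (o1.sub o2) hD0).sub ((o1.add o2).const_mul w2)
        refine m1.congr_deriv ?_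
        have hQx : Q x = -(c s - c s') / ((s : ℂ) - (s' : ℂ)) - w2 * ((s : ℂ) + (s' : ℂ)) := by
          rw [hQ, hs, hs', hw2]
        rw [← hs, ← hs', ← hw2, hQx] at hlin
        have hD' : (s : ℂ) - (s' : ℂ) ≠ 0 := by
          rw [hs, hs']
          exact hD
        simp only [Pi.sub_apply, Pi.neg_apply, zero_mul, add_zero, sub_zero, Complex.real_smul,
          Complex.ofReal_neg]
        field_simp at hlin ⊢
        linear_combination -hlin
      exact (hasDerivAt_const (0 : ℝ) x.2.1).prodMk (main.prodMk (hasDerivAt_const (0 : ℝ) w2))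

end Pool.Agent.CLK
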