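import Mathlib

/-!
# CLK/GPd: general position of plane curves, definitions and the null set principle  (difficulty 1)

`pw w s = w0 + w1 s + w2 s²` is the perturbation of a plane curve, `w = (w0, w1, w2)` in `C³`.
`dt a b` is the determinant of two complex numbers (`0` iff `a`, `b` are linearly dependent over `R`).

* `null_of_det`: `MeasureTheory.addHaar_image_eq_zero_of_det_fderivWithin_eq_zero` on the set `A`:
  `HasFDerivAt.hasFDerivWithinAt`; `det (f' x) = 0` because `f' x` has the nonzero kernel vector `v`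
  (if the determinant is not `0`, the linear map is injective: `LinearMap.ker_eq_bot..`,
  `LinearMap.equivOfDetNeZero`, `ContinuousLinearMap.det` is by definition the determinant of the
  linear map).
* `exists_small`: a set of measure `0` does not contain the ball `{‖w‖ < ε}`, which has positive
  measure (`Metric.measure_ball_pos`), hence some `w` of the ball is outside.
-/

open scoped ContDiff Topology
open Set Filter MeasureTheory

namespace Pool.Agent.CLK

/-- parameter space of the perturbations -/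
abbrev W3 := ℂ × ℂ × ℂ

/-- the perturbation `w0 + w1 s + w2 s²` -/
noncomputable def pw (w : W3) (s : ℝ) : ℂ := w.1 + w.2.1 * s + w.2.2 * (s : ℂ) ^ 2

/-- its derivative `w1 + 2 w2 s` -/
noncomputable def pw' (w : W3) (s : ℝ) : ℂ := w.2.1 + 2 * w.2.2 * s

/-- determinant of two complex numbers -/
def dt (a b : ℂ) : ℝ := a.re * b.im - a.im * b.re

theorem pw_hasDerivAt (w : W3) (s : ℝ) : HasDerivAt (pw w) (pw' w s) s := by
  have h1 : HasDerivAt (fun s : ℝ => (s : ℂ)) 1 s := (hasDerivAt_id s).ofReal_comp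
  have h2 := ((h1.const_mul w.2.1).const_add w.1).add ((h1.pow 2).const_mul w.2.2)
  have e : pw' w s = w.2.1 * 1 + w.2.2 * (((2 : ℕ) : ℂ) * (s : ℂ) ^ (2 - 1) * 1) := by
    show w.2.1 + 2 * w.2.2 * (s : ℂ) = _
    push_cast
    ring
  rw [e]
  exact h2

theorem pw_smooth : ContDiff ℝ ∞ (fun q : W3 × ℝ => pw q.1 q.2) := by
  have h1 : ContDiff ℝ ∞ (fun q : W3 × ℝ => ((q.2 : ℝ) : ℂ)) :=
    Complex.ofRealCLM.contDiff.comp contDiff_snd
  have h2 : ContDiff ℝ ∞ (fun q : W3 × ℝ => q.1.1) := contDiff_fst.comp contDiff_fst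
  have h3 : ContDiff ℝ ∞ (fun q : W3 × ℝ => q.1.2.1) :=
    contDiff_fst.comp (contDiff_snd.comp contDiff_fst)
  have h4 : ContDiff ℝ ∞ (fun q : W3 × ℝ => q.1.2.2) :=
    contDiff_snd.comp (contDiff_snd.comp contDiff_fst)
  exact (h2.add (h3.mul h1)).add (h4.mul (h1.pow 2))

theorem dt_zero {a b : ℂ} (h : dt a b = 0) : ∃ p q : ℝ, (p ≠ 0 ∨ q ≠ 0) ∧ p * a + q * b = 0 := by
  rw [dt] at h
  by_cases h1 : a.re = 0
  · by_cases h2 : a.im = 0
    · refine ⟨1, 0, Or.inl one_ne_zero, ?_⟩
      apply Complex.ext <;> simp [h1, h2]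
    · refine ⟨-b.im, a.im, Or.inr h2, ?_⟩
      apply Complex.ext
      · simp
        linear_combination -h
      · simp
        ring
  · refine ⟨-b.re, a.re, Or.inr h1, ?_⟩
    apply Complex.ext
    · simp
      ring
    · simp
      linear_combination h

theorem GPd_haar2 : (volume : Measure (ℂ × ℂ)).IsAddHaarMeasure := by
  rw [Measure.volume_eq_prod]
  exact Measure.prod.instIsAddHaarMeasure _ _

theorem GPd_haar : (volume : Measure W3).IsAddHaarMeasure := by
  have := GPd_haar2
  rw [Measure.volume_eq_prod]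
  exact Measure.prod.instIsAddHaarMeasure _ _

theorem null_of_det {f : W3 → W3} {f' : W3 → W3 →L[ℝ] W3} {A : Set W3}
    (hf : ∀ x ∈ A, HasFDerivAt f (f' x) x) (hk : ∀ x ∈ A, ∃ v, v ≠ 0 ∧ f' x v = 0) :
    volume (f '' A) = 0 := by
  have := GPd_haar
  apply MeasureTheory.addHaar_image_eq_zero_of_det_fderivWithin_eq_zero volume
    (fun x hx => (hf x hx).hasFDerivWithinAt)
  intro x hx
  obtain ⟨v, hv, hfv⟩ := hk x hx
  by_contra hdet
  apply hv
  have h1 : LinearMap.det (f' x : W3 →ₗ[ℝ] W3) ≠ 0 := hdet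
  have h2 : (f' x : W3 →ₗ[ℝ] W3) v = 0 := hfv
  have h3 : LinearMap.ker (f' x : W3 →ₗ[ℝ] W3) = ⊥ := by
    by_contra hcon
    exact h1 (LinearMap.det_eq_zero_iff_ker_ne_bot.2 hcon)
  exact LinearMap.ker_eq_bot'.1 h3 v h2

theorem exists_small {N : Set W3} (hN : volume N = 0) {ε : ℝ} (hε : 0 < ε) :
    ∃ w, w ∉ N ∧ ‖w‖ < ε := by
  have := GPd_haar
  by_contra hcon
  push Not at hcon
  have h1 : Metric.ball (0 : W3) ε ⊆ N := by
    intro w hw
    by_contra hwN
    have h2 := hcon w hwN
    rw [mem_ball_zero_iff] at hw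
    linarith
  have h3 : 0 < volume (Metric.ball (0 : W3) ε) := Metric.measure_ball_pos volume 0 hε
  have h4 : volume (Metric.ball (0 : W3) ε) ≤ 0 := hN ▸ measure_mono h1
  exact absurd h4 (not_le.2 h3)

end Pool.Agent.CLK
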